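import Mathlib

/-!
# Admissible functions on the Boolean cube
-/

open Finset

namespace Pool.Agent.H78.AM

variable {n : ℕ}

/-- the sign of a bit -/
def sg (b : Bool) : ℝ := if b then 1 else -1

/-- the character of a set -/
def chi (T : Finset (Fin n)) (x : Fin n → Bool) : ℝ := ∏ i ∈ T, sg (x i)

/-- degree at most `d` -/
def DegLE (d : ℕ) (f : (Fin n → Bool) → ℝ) : Prop :=
  ∃ c : Finset (Fin n) → ℝ, (∀ T, d < T.card → c T = 0) ∧ ∀ x, f x = ∑ T, c T * chi T x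

/-- admissible functions -/
structure Admissible (f : (Fin n → Bool) → ℝ) : Prop where
  gap : ∀ x, 2 / 3 ≤ |f x| ∧ |f x| ≤ 1
  high : ∀ x, (n : ℝ) / 2 ≤ ∑ i, sg (x i) → 2 / 3 ≤ f x
  low : ∀ x, ∑ i, sg (x i) ≤ -((n : ℝ) / 2) → f x ≤ -(2 / 3)

end Pool.Agent.H78.AM
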