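import Pool.Agent.H78.AM.Markov
import Pool.Agent.H78.AM.Defs

/-!
# The lower bound: an admissible function has degree at least `√(n / 23)`
-/

open Finset Polynomial

namespace Pool.Agent.H78.AM

variable {n : ℕ}

lemma sg_true : sg true = 1 := rfl

lemma sg_false : sg false = -1 := rfl

/-- the product weight -/
noncomputable def W (w : Fin n → ℝ) (x : Fin n → Bool) : ℝ := ∏ i, (1 + sg (x i) * w i) / 2

lemma W_nonneg {w : Fin n → ℝ} (hw : ∀ i, |w i| ≤ 1) (x : Fin n → Bool) : 0 ≤ W w x := by
  unfold W
  refine prod_nonneg fun i _ => ?_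
  have := abs_le.mp (hw i)
  cases x i
  · rw [sg_false]; linarith
  · rw [sg_true]; linarith

lemma W_chi (w : Fin n → ℝ) (T : Finset (Fin n)) : ∑ x, W w x * chi T x = ∏ i ∈ T, w i := by
  have h1 : ∀ x : Fin n → Bool, W w x * chi T x =
      ∏ i, ((1 + sg (x i) * w i) / 2 * (if i ∈ T then sg (x i) else 1)) := by
    intro x
    unfold W chi
    rw [prod_mul_distrib, prod_ite_mem, univ_inter]
  simp_rw [h1]
  rw [← Fintype.piFinset_univ, ← prod_univ_sum (fun _ : Fin n => (univ : Finset Bool))
    (fun (i : Fin n) (b : Bool) => (1 + sg b * w i) / 2 * (if i ∈ T then sg b else 1))]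
  have h2 : ∏ i ∈ T, w i = ∏ i, (if i ∈ T then w i else 1) := by
    rw [prod_ite_mem, univ_inter]
  rw [h2]
  refine prod_congr rfl fun i _ => ?_
  rw [Fintype.sum_bool, sg_true, sg_false]
  split_ifs <;> ring

lemma W_sum (w : Fin n → ℝ) : ∑ x, W w x = 1 := by
  have := W_chi w ∅
  simpa [chi] using this

/-- the univariate polynomial along a block -/
noncomputable def G (c : Finset (Fin n) → ℝ) (z : Fin n → Bool) : ℝ[X] :=
  ∑ T, C (c T) * ∏ i ∈ T, (if z i then 1 else 2 * X - 1)

lemma natDegree_G {d : ℕ} {c : Finset (Fin n) → ℝ} (hc : ∀ T, d < T.card → c T = 0)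
    (z : Fin n → Bool) : (G c z).natDegree ≤ d := by
  unfold G
  refine natDegree_sum_le_of_forall_le _ _ fun T _ => ?_
  by_cases hT : d < T.card
  · rw [hc T hT]; simp
  · refine (natDegree_C_mul_le _ _).trans ((natDegree_prod_le _ _).trans ?_)
    refine (sum_le_card_nsmul _ _ 1 fun i _ => ?_).trans (by simpa using hT)
    split_ifs
    · simp
    · refine (natDegree_sub_le _ _).trans ?_
      simp

/-- the biases -/
noncomputable def ww (z : Fin n → Bool) (p : ℝ) (i : Fin n) : ℝ := if z i then 1 else 2 * p - 1

lemma eval_G {c : Finset (Fin n) → ℝ} {f : (Fin n → Bool) → ℝ}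
    (hf : ∀ x, f x = ∑ T, c T * chi T x) (z : Fin n → Bool) (p : ℝ) :
    (G c z).eval p = ∑ x, W (ww z p) x * f x := by
  simp_rw [hf, mul_sum]
  rw [sum_comm]
  unfold G
  rw [eval_finsetSum]
  refine sum_congr rfl fun T _ => ?_
  have : ∑ x, W (ww z p) x * (c T * chi T x) = c T * ∑ x, W (ww z p) x * chi T x := by
    rw [mul_sum]
    exact sum_congr rfl fun x _ => by ring
  rw [this, W_chi, eval_mul, eval_C, eval_prod]
  congr 1
  refine prod_congr rfl fun i _ => ?_
  unfold ww
  split_ifs <;> simp

lemma abs_ww {z : Fin n → Bool} {p : ℝ} (hp : p ∈ Set.Icc (0 : ℝ) 1) (i : Fin n) :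
    |ww z p i| ≤ 1 := by
  unfold ww
  split_ifs
  · simp
  · rw [abs_le]; constructor <;> linarith [hp.1, hp.2]

lemma W_zero {z x : Fin n → Bool} {p : ℝ} {i : Fin n} (hz : z i = true) (hx : x i = false) :
    W (ww z p) x = 0 := by
  unfold W
  apply prod_eq_zero (mem_univ i)
  unfold ww
  rw [hx, hz, sg_false]
  simp

lemma W_self (z : Fin n → Bool) (p : ℝ) :
    W (ww z p) z = (1 - p) ^ (univ.filter (fun i => z i = false)).card := by
  unfold W ww
  rw [← prod_const, prod_filter]
  refine prod_congr rfl fun i _ => ?_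
  cases h : z i
  · rw [sg_false]; simp; ring
  · rw [sg_true]; simp

theorem lower {f : (Fin n → Bool) → ℝ} (hn : 0 < n) (hA : Admissible f) {d : ℕ}
    (hd : DegLE d f) : (n : ℝ) ≤ 23 * (d : ℝ) ^ 2 := by
  classical
  obtain ⟨c, hc, hf⟩ := hd
  have hn' : (0 : ℝ) < n := by exact_mod_cast hn
  -- the negative points
  set Neg : Finset (Fin n → Bool) := univ.filter (fun x => f x < 0) with hNeg
  have hne : Neg.Nonempty := by
    refine ⟨fun _ => false, mem_filter.mpr ⟨mem_univ _, ?_⟩⟩
    have := hA.low (fun _ => false) (by simp [sg_false])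
    linarith
  -- a negative point with fewest false coordinates
  obtain ⟨z, hz, hzmin⟩ := exists_min_image Neg
    (fun x => (univ.filter (fun i => x i = false)).card) hne
  have hzneg : f z < 0 := (mem_filter.mp hz).2
  set m := (univ.filter (fun i => z i = false)).card with hm
  have hsum : ∀ x : Fin n → Bool, ∑ i, sg (x i) =
      n - 2 * ((univ.filter (fun i => x i = false)).card : ℝ) := by
    intro x
    have h1 : ∀ i, sg (x i) = 1 - 2 * (if x i = false then 1 else 0) := by
      intro i
      cases x i
      · rw [sg_false]; norm_num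
      · rw [sg_true]; norm_num
    simp_rw [h1]
    rw [sum_sub_distrib, ← mul_sum, sum_boole]
    simp
  have hm4 : (n : ℝ) / 4 < m := by
    by_contra hcon
    push Not at hcon
    have := hA.high z (by rw [hsum z]; linarith)
    linarith
  have hmpos : (0 : ℝ) < m := by linarith
  have hm1 : 1 ≤ m := by
    have : 0 < m := by exact_mod_cast hmpos
    omega
  -- values
  have hfz : f z ≤ -(2 / 3) := by
    have := (hA.gap z).1
    rw [abs_of_neg hzneg] at this
    linarith
  have habove : ∀ x, x ≠ z → (∀ i, z i = true → x i = true) → 2 / 3 ≤ f x := by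
    intro x hx hle
    by_contra hcon
    have hxneg : f x < 0 := by
      by_contra h0
      push Not at h0
      have := (hA.gap x).1
      rw [abs_of_nonneg h0] at this
      exact hcon this
    have h1 := hzmin x (mem_filter.mpr ⟨mem_univ _, hxneg⟩)
    have h2 : univ.filter (fun i => x i = false) ⊆ univ.filter (fun i => z i = false) := by
      intro i hi
      rw [mem_filter] at hi ⊢
      refine ⟨mem_univ _, ?_⟩
      by_contra h3
      have := hle i (by simpa using h3)
      rw [hi.2] at this
      exact absurd this (by simp)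
    have h3 := eq_of_subset_of_card_le h2 h1
    apply hx
    funext i
    have h4 : i ∈ univ.filter (fun i => x i = false) ↔ i ∈ univ.filter (fun i => z i = false) := by
      rw [h3]
    simp only [mem_filter, mem_univ, true_and] at h4
    cases hxi : x i <;> cases hzi : z i <;> simp_all
  -- the polynomial
  have hbd : ∀ p ∈ Set.Icc (0 : ℝ) 1, |(G c z).eval p| ≤ 1 := by
    intro p hp
    rw [eval_G hf]
    calc |∑ x, W (ww z p) x * f x| ≤ ∑ x, |W (ww z p) x * f x| := abs_sum_le_sum_abs _ _
      _ ≤ ∑ x, W (ww z p) x := by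
          refine sum_le_sum fun x _ => ?_
          rw [abs_mul, abs_of_nonneg (W_nonneg (fun i => abs_ww hp i) x)]
          have h1 := (hA.gap x).2
          have h2 := W_nonneg (w := ww z p) (fun i => abs_ww hp i) x
          nlinarith
      _ = 1 := W_sum _
  have h0 : (G c z).eval 0 = f z := by
    rw [eval_G hf, Fintype.sum_eq_single z]
    · rw [W_self]; simp
    · intro x hx
      by_cases hle : ∀ i, z i = true → x i = true
      · -- some coordinate is raised
        have : ∃ i, z i = false ∧ x i = true := by
          by_contra hcon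
          push Not at hcon
          apply hx
          funext i
          cases hzi : z i
          · have := hcon i hzi; simpa using this
          · exact hle i hzi
        obtain ⟨i, h1, h2⟩ := this
        have : W (ww z 0) x = 0 := by
          unfold W
          apply prod_eq_zero (mem_univ i)
          unfold ww
          rw [h2, h1, sg_true]
          simp
        rw [this, zero_mul]
      · push Not at hle
        obtain ⟨i, h1, h2⟩ := hle
        rw [W_zero h1 (by simpa using h2), zero_mul]
  set p : ℝ := 1 / m with hp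
  have hp1 : p ∈ Set.Icc (0 : ℝ) 1 := by
    constructor
    · positivity
    · rw [hp, div_le_one hmpos]
      exact_mod_cast hm1
  have hWz : W (ww z p) z ≤ 3 / 8 := by
    rw [W_self, ← hm]
    have h1 : (1 - p) ^ m ≤ Real.exp (-p) ^ m := by
      apply pow_le_pow_left₀ (by linarith [hp1.2])
      have := Real.add_one_le_exp (-p)
      linarith
    have h2 : Real.exp (-p) ^ m = Real.exp (-1) := by
      rw [← Real.exp_nat_mul]
      congr 1
      rw [hp]
      field_simp
    have h3 : Real.exp (-1) ≤ 3 / 8 := by
      rw [Real.exp_neg]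
      have := Real.exp_one_gt_d9
      rw [inv_le_comm₀ (by positivity) (by norm_num)]
      linarith
    linarith
  have hGp : 2 / 3 - 5 / 3 * (3 / 8) ≤ (G c z).eval p := by
    rw [eval_G hf]
    have h1 : ∑ x, W (ww z p) x * f x ≥
        ∑ x, (W (ww z p) x * (2 / 3) - (if x = z then 5 / 3 * W (ww z p) z else 0)) := by
      refine sum_le_sum fun x _ => ?_
      split_ifs with hx
      · subst hx
        have h2 := W_nonneg (w := ww x p) (fun i => abs_ww hp1 i) x
        have h3 := neg_le_of_abs_le (hA.gap x).2
        nlinarith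
      · by_cases hle : ∀ i, z i = true → x i = true
        · have h2 := W_nonneg (w := ww z p) (fun i => abs_ww hp1 i) x
          have h3 := habove x hx hle
          nlinarith
        · push Not at hle
          obtain ⟨i, h4, h5⟩ := hle
          rw [W_zero h4 (by simpa using h5)]
          simp
    rw [sum_sub_distrib, ← sum_mul, W_sum, sum_ite_eq' univ z, if_pos (mem_univ _)] at h1
    linarith
  have hfin := sub_le_of_bounded (natDegree_G hc z) hbd (le_refl 0) hp1.1 hp1.2
  rw [h0, sub_zero, hp] at hfin
  have h5 : (17 : ℝ) / 24 ≤ 4 * (d : ℝ) ^ 2 * (1 / m) := by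
    rw [hp] at hGp
    linarith
  have h6 : (17 : ℝ) / 24 * m ≤ 4 * (d : ℝ) ^ 2 := by
    have := mul_le_mul_of_nonneg_right h5 hmpos.le
    rwa [mul_assoc, one_div, inv_mul_cancel₀ hmpos.ne', mul_one] at this
  nlinarith

end Pool.Agent.H78.AM
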