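import Mathlib

/-!
# A Markov inequality (with constant 4 on the unit interval)
-/

open Polynomial

namespace Pool.Agent.H78.AM

lemma derivative_T_one (d : ℕ) : (derivative (Chebyshev.T ℝ d)).eval 1 = (d : ℝ) ^ 2 := by
  rw [Chebyshev.T_derivative_eq_U]
  simp only [eval_mul, eval_intCast, Chebyshev.U_eval_one]
  push_cast
  ring

/-- derivative at the right end of `[-1,1]` -/
lemma deriv_one_le {d : ℕ} {Q : ℝ[X]} (hdeg : Q.degree ≤ d)
    (hQ : ∀ t ∈ Set.Icc (-1 : ℝ) 1, |Q.eval t| ≤ 1) :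
    |(derivative Q).eval 1| ≤ (d : ℝ) ^ 2 := by
  have h1 := Chebyshev.eval_iterate_derivative_le_of_forall_abs_le_one (k := 1)
    (le_refl (1 : ℝ)) hdeg hQ
  have h2 := Chebyshev.eval_iterate_derivative_le_of_forall_abs_le_one (k := 1) (P := -Q)
    (le_refl (1 : ℝ)) (by rwa [degree_neg]) (fun t ht => by
      rw [eval_neg, abs_neg]; exact hQ t ht)
  simp only [Function.iterate_one, derivative_neg, eval_neg, derivative_T_one] at h1 h2
  rw [abs_le]
  constructor <;> linarith

lemma markov_right {d : ℕ} {P : ℝ[X]} (hdeg : P.natDegree ≤ d)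
    (hP : ∀ x ∈ Set.Icc (0 : ℝ) 1, |P.eval x| ≤ 1) {x : ℝ} (hx : 1 / 2 ≤ x) (hx1 : x ≤ 1) :
    |(derivative P).eval x| ≤ 4 * (d : ℝ) ^ 2 := by
  set Q : ℝ[X] := P.comp (C (x / 2) * (X + 1)) with hQ
  have hQdeg : Q.degree ≤ d := by
    have h1 : Q.natDegree ≤ d := by
      rw [hQ]
      refine natDegree_comp_le.trans ?_
      have : (C (x / 2) * (X + 1) : ℝ[X]).natDegree ≤ 1 := by
        refine (natDegree_C_mul_le _ _).trans ?_
        have := natDegree_X_add_C (1 : ℝ)
        simp only [map_one] at this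
        exact this.le
      calc P.natDegree * (C (x / 2) * (X + 1) : ℝ[X]).natDegree ≤ P.natDegree * 1 := by gcongr
        _ ≤ d := by rw [mul_one]; exact hdeg
    exact degree_le_of_natDegree_le h1
  have hQb : ∀ t ∈ Set.Icc (-1 : ℝ) 1, |Q.eval t| ≤ 1 := by
    intro t ht
    rw [hQ, eval_comp]
    apply hP
    simp only [eval_mul, eval_C, eval_add, eval_X, eval_one]
    constructor
    · have := ht.1; apply mul_nonneg <;> linarith
    · have := ht.2; nlinarith [ht.1]
  have h := deriv_one_le hQdeg hQb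
  have h2 : (derivative Q).eval 1 = x / 2 * (derivative P).eval x := by
    rw [hQ, derivative_comp]
    simp only [eval_mul, eval_comp, derivative_mul, derivative_C, derivative_add, derivative_X,
      derivative_one, eval_add, eval_C, eval_X, eval_one, eval_zero]
    ring_nf
  rw [h2, abs_mul, abs_of_pos (by linarith : 0 < x / 2)] at h
  have h3 : 0 ≤ |(derivative P).eval x| := abs_nonneg _
  nlinarith

theorem markov {d : ℕ} {P : ℝ[X]} (hdeg : P.natDegree ≤ d)
    (hP : ∀ x ∈ Set.Icc (0 : ℝ) 1, |P.eval x| ≤ 1) {x : ℝ} (hx : x ∈ Set.Icc (0 : ℝ) 1) :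
    |(derivative P).eval x| ≤ 4 * (d : ℝ) ^ 2 := by
  rcases le_total (1 / 2) x with h | h
  · exact markov_right hdeg hP h hx.2
  · set R : ℝ[X] := P.comp (1 - X) with hR
    have hRdeg : R.natDegree ≤ d := by
      rw [hR]
      refine natDegree_comp_le.trans ?_
      have : (1 - X : ℝ[X]).natDegree ≤ 1 := by
        have := natDegree_sub_le (1 : ℝ[X]) X
        simp only [natDegree_one, natDegree_X] at this
        exact this.trans (by simp)
      calc P.natDegree * (1 - X : ℝ[X]).natDegree ≤ P.natDegree * 1 := by gcongr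
        _ ≤ d := by rw [mul_one]; exact hdeg
    have hRb : ∀ t ∈ Set.Icc (0 : ℝ) 1, |R.eval t| ≤ 1 := by
      intro t ht
      rw [hR, eval_comp]
      apply hP
      simp only [eval_sub, eval_one, eval_X]
      constructor <;> linarith [ht.1, ht.2]
    have h1 := markov_right hRdeg hRb (x := 1 - x) (by linarith) (by linarith [hx.1])
    have h2 : (derivative R).eval (1 - x) = -(derivative P).eval x := by
      rw [hR, derivative_comp]
      simp [eval_comp]
    rwa [h2, abs_neg] at h1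

/-- change of a bounded polynomial over an interval -/
theorem sub_le_of_bounded {d : ℕ} {P : ℝ[X]} (hdeg : P.natDegree ≤ d)
    (hP : ∀ x ∈ Set.Icc (0 : ℝ) 1, |P.eval x| ≤ 1) {a b : ℝ} (ha : 0 ≤ a) (hab : a ≤ b)
    (hb : b ≤ 1) : P.eval b - P.eval a ≤ 4 * (d : ℝ) ^ 2 * (b - a) := by
  have h := Convex.norm_image_sub_le_of_norm_hasDerivWithin_le (𝕜 := ℝ)
    (f := fun x => P.eval x) (f' := fun x => (derivative P).eval x) (s := Set.Icc (0 : ℝ) 1)
    (C := 4 * (d : ℝ) ^ 2) (x := a) (y := b)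
    (fun x _ => (P.hasDerivAt x).hasDerivWithinAt)
    (fun x hx => by rw [Real.norm_eq_abs]; exact markov hdeg hP hx) (convex_Icc 0 1)
    ⟨ha, hab.trans hb⟩ ⟨ha.trans hab, hb⟩
  rw [Real.norm_eq_abs, Real.norm_eq_abs, abs_of_nonneg (by linarith : 0 ≤ b - a)] at h
  exact (le_abs_self _).trans h

end Pool.Agent.H78.AM
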